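import Mathlib

set_option autoImplicit false

namespace Pool.Agent.Results.MP_776ebc_al.Disproof

open MvPolynomial

attribute [local instance 100] LieRing.ofAssociativeRing

section
variable {K : Type} [Field K]

abbrev P (K : Type) [Field K] := MvPolynomial (Fin 3) K

lemma der_mem (m : Ideal (P K)) (D : Derivation K (P K) (P K)) {z : P K} (hz : z ∈ m) (k : ℕ) :
    ∀ f ∈ m ^ k, z * D f ∈ m ^ k := by
  induction k with
  | zero => simp
  | succ k ih =>
    intro f hf
    rw [pow_succ] at hf ⊢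
    refine Submodule.mul_induction_on hf (fun a ha b hb => ?_) fun a b ha hb => ?_
    · rw [D.leibniz, smul_eq_mul, smul_eq_mul, mul_add, mul_left_comm, mul_left_comm z b,
        mul_comm b]
      exact add_mem (Ideal.mul_mem_mul ha (m.mul_mem_right _ hz)) (Ideal.mul_mem_mul (ih a ha) hb)
    · rw [map_add, mul_add]; exact add_mem ha hb

lemma der_mem' (s : Set (P K)) (D : Derivation K (P K) (P K)) (hs : ∀ x ∈ s, D x = 0) (k : ℕ) :
    ∀ f ∈ Ideal.span s ^ k, D f ∈ Ideal.span s ^ k := by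
  have h1 : ∀ f ∈ Ideal.span s, D f ∈ Ideal.span s := fun f hf => by
    refine Submodule.span_induction (fun x hx => by simp [hs x hx]) (by simp)
      (fun x y _ _ hx hy => by simpa using add_mem hx hy) (fun a x hx h => ?_) hf
    rw [smul_eq_mul, D.leibniz]
    exact add_mem (Ideal.mul_mem_left _ _ h) (Ideal.mul_mem_right _ _ hx)
  induction k with
  | zero => simp
  | succ k ih =>
    intro f hf
    rw [pow_succ] at hf ⊢
    refine Submodule.mul_induction_on hf (fun a ha b hb => ?_) fun a b ha hb => ?_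
    · rw [D.leibniz, smul_eq_mul, smul_eq_mul, mul_comm b]
      exact add_mem (Ideal.mul_mem_mul ha (h1 b hb)) (Ideal.mul_mem_mul (ih a ha) hb)
    · rw [map_add]; exact add_mem ha hb

noncomputable def dd (a b : K) : Derivation K (P K) (P K) := a • pderiv 1 - b • pderiv 0

noncomputable def ell (a b c : K) : P K := C a * X 0 + C b * X 1 + C c * X 2

noncomputable def op (a b c : K) : Module.End K (P K) :=
  LinearMap.mulLeft K (ell a b c) + LinearMap.mulLeft K (X 2) ∘ₗ (dd a b).toLinearMap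

lemma op_apply (a b c : K) (f : P K) : op a b c f = ell a b c * f + X 2 * dd a b f := rfl

lemma d_comm (f : P K) : pderiv 0 (pderiv 1 f) = pderiv 1 (pderiv 0 f) := by
  induction f using MvPolynomial.induction_on with
  | C a => simp
  | add p q hp hq => simp [hp, hq]
  | mul_X p i hp => fin_cases i <;> simp [hp, add_comm]

lemma op_lie (a b c a' b' c' : K) :
    op a b c * op a' b' c' - op a' b' c' * op a b c = op 0 0 (2 * (a * b' - a' * b)) := by
  refine LinearMap.ext fun f => ?_
  simp [op_apply, dd, ell, smul_eq_C_mul, d_comm, map_ofNat]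
  ring

noncomputable def mm (K : Type) [Field K] : Ideal (P K) := Ideal.span {X 0, X 1, X 2}

lemma X_mem (i : Fin 3) : (X i : P K) ∈ mm K := Ideal.subset_span (by fin_cases i <;> simp)

lemma ell_mem (a b c : K) : ell a b c ∈ mm K :=
  add_mem (add_mem (Ideal.mul_mem_left _ _ (X_mem 0)) (Ideal.mul_mem_left _ _ (X_mem 1)))
    (Ideal.mul_mem_left _ _ (X_mem 2))

lemma op_mem (a b c : K) (k : ℕ) (f : P K) (hf : f ∈ mm K ^ k) : op a b c f ∈ mm K ^ k :=
  add_mem (Ideal.mul_mem_left _ _ hf) (der_mem _ _ (X_mem 2) k f hf)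

lemma op_pow (a b c : K) (k : ℕ) (f : P K) : (op a b c ^ k) f ∈ mm K ^ k := by
  have : (op a b c ^ k) f ∈ Ideal.span {ell a b c, X 2} ^ k := by
    induction k with
    | zero => simp
    | succ k ih =>
      rw [pow_succ', pow_succ', Module.End.mul_apply, op_apply]
      refine add_mem (Ideal.mul_mem_mul (Ideal.subset_span (by simp)) ih)
        (Ideal.mul_mem_mul (Ideal.subset_span (by simp)) (der_mem' _ _ ?_ k _ ih))
      rintro x (rfl | rfl)
      · simp [dd, ell, smul_eq_C_mul, mul_comm]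
      · simp [dd]
  refine Ideal.pow_right_mono (Ideal.span_le.mpr ?_) k this
  rintro x (rfl | rfl)
  exacts [ell_mem a b c, X_mem 2]

noncomputable def rho (K : Type) [Field K] : FreeAlgebra K (Fin 2) →ₐ[K] Module.End K (P K) :=
  FreeAlgebra.lift K ![op 1 0 0, op 0 1 0]

lemma rho_mem (k : ℕ) (T : FreeAlgebra K (Fin 2)) : ∀ f ∈ mm K ^ k, rho K T f ∈ mm K ^ k := by
  induction T using FreeAlgebra.induction with
  | grade0 r => intro f hf; simpa [smul_eq_C_mul] using Ideal.mul_mem_left _ _ hf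
  | grade1 i => intro f hf; fin_cases i <;> simpa [rho] using op_mem _ _ _ k f hf
  | mul a b ha hb => intro f hf; simpa using ha _ (hb f hf)
  | add a b ha hb => intro f hf; simpa using add_mem (ha f hf) (hb f hf)

lemma xy (k j : ℕ) : ∃ g : P K, (op (1 : K) 0 0 ^ k) (X 1 ^ (j + k)) =
    ((j + k).descFactorial k : P K) * X 2 ^ k * X 1 ^ j + X 0 * g := by
  induction k generalizing j with
  | zero => exact ⟨0, by simp⟩
  | succ k ih =>
    obtain ⟨g, hg⟩ := ih (j + 1)
    refine ⟨((j + 1 + k).descFactorial k : P K) * X 2 ^ k * X 1 ^ (j + 1) + X 0 * g +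
      X 2 * pderiv 1 g, ?_⟩
    rw [pow_succ', Module.End.mul_apply, show j + (k + 1) = j + 1 + k by ring, hg,
      Nat.descFactorial_succ, show j + 1 + k - k = j + 1 by omega]
    simp [op_apply, dd, ell]
    ring

lemma yy (k : ℕ) : (op (0 : K) 1 0 ^ k) 1 = X 1 ^ k := by
  induction k with
  | zero => simp
  | succ k ih => rw [pow_succ', Module.End.mul_apply, ih, pow_succ']; simp [op_apply, dd, ell]

end

/-- The Lie subalgebra `L₀` of the free associative algebra generated by `X` and `Y`. -/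
noncomputable def L0 (K : Type) [Field K] : LieSubalgebra K (FreeAlgebra K (Fin 2)) :=
  LieSubalgebra.lieSpan K _ {FreeAlgebra.ι K 0, FreeAlgebra.ι K 1}

/-- The two-sided ideal generated by all `U ^ n`, `U ∈ L₀`. -/
noncomputable def nilIdeal (K : Type) [Field K] (n : ℕ) : TwoSidedIdeal (FreeAlgebra K (Fin 2)) :=
  TwoSidedIdeal.span {T | ∃ U ∈ L0 K, T = U ^ n}

/-- The monomial `X^(n-1) Y^(n-1)` of degree `2n - 2` is not in the ideal. -/
theorem result (n : ℕ) (hn : 3 ≤ n) (K : Type) [Field K]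
    (hK : ringChar K = 0 ∨ 3 * n < 2 * ringChar K) :
    FreeAlgebra.ι K (0 : Fin 2) ^ (n - 1) * FreeAlgebra.ι K (1 : Fin 2) ^ (n - 1) ∉
      nilIdeal K n := by
  intro h
  have hL : ∀ U ∈ L0 K, ∃ a b c, rho K U = op a b c := fun U hU => by
    refine LieSubalgebra.lieSpan_induction K (p := fun U _ => ∃ a b c, rho K U = op a b c)
      ?_ ⟨0, 0, 0, ?_⟩ ?_ ?_ ?_ hU
    · rintro x (rfl | rfl)
      exacts [⟨1, 0, 0, by simp [rho]⟩, ⟨0, 1, 0, by simp [rho]⟩]
    · ext1; simp [op, ell, dd]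
    · rintro x y - - ⟨a, b, c, h1⟩ ⟨a', b', c', h2⟩
      refine ⟨a + a', b + b', c + c', LinearMap.ext fun f => ?_⟩
      simp [h1, h2, op_apply, ell, dd, smul_eq_C_mul]; ring
    · rintro r x - ⟨a, b, c, h1⟩
      refine ⟨r * a, r * b, r * c, LinearMap.ext fun f => ?_⟩
      simp [h1, op_apply, ell, dd, smul_eq_C_mul]; ring
    · rintro x y - - ⟨a, b, c, h1⟩ ⟨a', b', c', h2⟩
      exact ⟨0, 0, _, by rw [Ring.lie_def, map_sub, map_mul, map_mul, h1, h2, op_lie]⟩
  have key : ∀ T ∈ nilIdeal K n, ∀ f, rho K T f ∈ mm K ^ n := fun T hT => by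
    refine TwoSidedIdeal.span_induction (p := fun T _ => ∀ f, rho K T f ∈ mm K ^ n) ?_ ?_ ?_ ?_
      ?_ ?_ hT
    · rintro _ ⟨U, hU, rfl⟩ f
      obtain ⟨a, b, c, h1⟩ := hL U hU
      rw [map_pow, h1]
      exact op_pow a b c n f
    · simp
    · intro x y _ _ hx hy f; simpa using add_mem (hx f) (hy f)
    · intro x _ hx f; simpa using hx f
    · intro a x _ hx f; simpa using rho_mem n a _ (hx f)
    · intro b x _ hx f; simpa using hx _
  obtain ⟨k, rfl⟩ : ∃ k, n = k + 1 := ⟨n - 1, by omega⟩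
  have h1 := key _ h 1
  obtain ⟨g, hg⟩ := xy (K := K) k 0
  simp only [zero_add, pow_zero, mul_one, Nat.descFactorial_self] at hg
  simp only [Nat.add_sub_cancel, map_mul, map_pow, rho, FreeAlgebra.lift_ι_apply,
    Matrix.cons_val_zero, Matrix.cons_val_one, Module.End.mul_apply, yy, hg] at h1
  let ψ : P K →ₐ[K] Polynomial K := aeval ![0, 0, Polynomial.X]
  have h2 : (mm K ^ (k + 1)).map ψ ≤ Ideal.span {Polynomial.X ^ (k + 1)} := by
    rw [Ideal.map_pow, ← Ideal.span_singleton_pow]
    refine Ideal.pow_right_mono ?_ _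
    rw [mm, Ideal.map_span, Ideal.span_le]
    rintro _ ⟨x, rfl | rfl | rfl, rfl⟩ <;> simp [ψ]
  have h3 := Polynomial.X_pow_dvd_iff.mp
    (Ideal.mem_span_singleton.mp (h2 (Ideal.mem_map_of_mem ψ h1))) k k.lt_succ_self
  simp [ψ] at h3
  rw [ringChar.spec] at h3
  rcases hK with hK | hK
  · rw [hK, zero_dvd_iff] at h3
    exact k.factorial_ne_zero h3
  · have hp := CharP.char_prime_of_ne_zero K (p := ringChar K) (by omega)
    have := (hp.dvd_factorial).mp h3
    omega

end Pool.Agent.Results.MP_776ebc_al.Disproof
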